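import Pool.Agent.U241.DA.Pow
import Pool.Agent.U241.DO.Final

/-!
# Groups of invertible differential operators over domains of analytic type

Let `K` be a commutative ring, `A` a commutative `K`-algebra which is a domain of characteristic
zero, and `M` a finitely generated torsion-free `A`-module. `DM K A M` is the ring of the `K`-linear
differential operators `M → M` in the sense of Grothendieck: it is the union of the groups
`Do (ds K A M) n` (the operators of order less than `n`), where `Do _ 0 = 0` and `u` is in
`Do _ (n + 1)` if `a u - u a` is in `Do _ n` for all `a` in `A`.

Suppose that there are finitely many elements `t₁, …, t_N` of `A` such that the only `K`-derivation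
`A → A` which vanishes at all `t_i` is zero (`DetBy K t`). This holds for the rings of formal or convergent power
series (with the variables), for the ring of the analytic functions on a connected real analytic or
Stein manifold (with the coordinates of an embedding), for algebras essentially of finite type, and
so on; the algebra `A` is in general neither of finite type nor noetherian, and its `K`-derivations
to the field of fractions are in general not determined by finitely many values.

Then every group with a homomorphism with exact kernel to the group of the invertible elements of
`DM K A M` is exact, and embeds coarsely into a Hilbert space if it is countable. The second part is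
the case of formal power series rings in `m` variables, `M` free of rank `r`.
-/

namespace Pool.Agent.Results.MP_df705a_gt.AnalyticDifferentialOperators

open Pool.Agent.U241.EX Pool.Agent.U241.DO Pool.Agent.U241.DA Pool.Agent.N506.EX

universe u

/-- Every group with a homomorphism with exact kernel to the group of units of `R` is exact, and
embeds coarsely into a Hilbert space if it is countable. -/
def ExactUnits (R : Type u) [Ring R] : Prop :=
  ∀ (P : Type u) [Group P] (φ : P →* Rˣ), IsExact φ.ker →
    IsExact P ∧ (Countable P → CoarselyEmbeds P)

theorem units {R : Type u} [Ring R] (h : MEx R) : ExactUnits R := by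
  intro P _ φ hφ
  let ψ : Rˣ →* (Matrix (Fin 1) (Fin 1) R)ˣ := Units.map (Matrix.scalar (Fin 1)).toMonoidHom
  have hψ : Function.Injective ψ := by
    intro x y hxy
    apply Units.ext
    have h1 : Matrix.scalar (Fin 1) (x : R) = Matrix.scalar (Fin 1) (y : R) :=
      congrArg Units.val hxy
    have h2 := congrFun (congrFun h1 0) 0
    rwa [Matrix.scalar_apply, Matrix.scalar_apply, Matrix.diagonal_apply_eq,
      Matrix.diagonal_apply_eq] at h2
  have hk : (ψ.comp φ).ker = φ.ker := by
    ext x
    rw [MonoidHom.mem_ker, MonoidHom.mem_ker, MonoidHom.comp_apply]
    constructor
    · intro hx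
      exact hψ (by rw [hx, map_one])
    · intro hx
      rw [hx, map_one]
  refine exactGL h 1 P (ψ.comp φ) ?_
  rw [hk]
  exact hφ

theorem result :
    (∀ (K A M : Type u) [CommRing K] [CommRing A] [IsDomain A] [CharZero A] [Algebra K A]
      [AddCommGroup M] [Module K M] [Module A M] [IsScalarTower K A M] [Module.Finite A M],
      (∀ (a : A) (m : M), a • m = 0 → a = 0 ∨ m = 0) →
      ∀ (N : ℕ) (t : Fin N → A), DetBy K t → ExactUnits (DM K A M)) ∧
    (∀ (K : Type u) [CommRing K] [IsDomain K] [CharZero K] (m r : ℕ),
      ExactUnits (DM K (MvPowerSeries (Fin m) K) (Fin r → MvPowerSeries (Fin m) K))) := by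
  refine ⟨?_, ?_⟩
  · intro K A M _ _ _ _ _ _ _ _ _ _ htf N t ht
    exact units (All.Lin.tower 1 _ (tower_M (K := K) (M := M) htf ht)).mex
  · intro K _ _ _ m r
    have hD : IsDomain (MvPowerSeries (Fin m) K) := NoZeroDivisors.to_isDomain _
    refine units (All.Lin.tower 1 _ (tower_M (K := K) (A := MvPowerSeries (Fin m) K)
      (M := Fin r → MvPowerSeries (Fin m) K) ?_ (detBy_X (K := K) (m := m)))).mex
    intro a f haf
    by_cases ha : a = 0
    · exact Or.inl ha
    · refine Or.inr (funext fun i => ?_)
      have h1 : a * f i = 0 := congrFun haf i
      exact (mul_eq_zero.mp h1).resolve_left ha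

end Pool.Agent.Results.MP_df705a_gt.AnalyticDifferentialOperators
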