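import Pool.Agent.U801.CM.Main

/-!
# Commensurated finitely generated metabelian subgroups

`IsExact` is exactness of discrete groups (Yu's property A) and `CoarselyEmbeds` is coarse
embeddability into a Hilbert space, see `Pool/Agent/N506/EX0.lean`. `Comm G` is the abstract
commensurator of `G` (`Pool/Agent/N24/CM/Comm.lean`): the group of units of the monoid `VEnd G` of
virtual endomorphisms of `G`, which are the classes of the maps from `G` to `G` which are
homomorphisms on a subgroup of finite index, two maps being identified if they agree on a subgroup
of finite index.

(1) If `G` is finitely generated and virtually metabelian, then `Comm G` is exact and embeds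
coarsely into a Hilbert space.

(2) Let `P` be a group which commensurates such a subgroup `G`, that is, `G ∩ p G p⁻¹` has finite
index in `G` for all `p` in `P`. Then `P` is exact if and only if the centralizer in `P` of every
subgroup of finite index of `G` is exact.

(3) This holds in particular if `P` acts on a connected locally finite graph and `G` is the
stabilizer of a vertex.

Outline. One may assume that `[G, G]` is abelian. For a subgroup `K` of `P` let `VC K` be the group
of the elements of `P` which commute with a subgroup of finite index of `K`; it is normal if `K` is
commensurated. Let `F` be the group of all `x` in `G` with a power acting unipotently on `[G, G]`.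
It is commensurated, `[G, G] ≤ F`, and if `G ≠ 1` the intersection `Z` of `G` with the normal
subgroup `VC F` is not trivial. Its centre `A` is commensurated up to finite index and a finitely
generated module over the commutative ring `R` generated by the conjugations with the elements of a
suitable subgroup of finite index of `G`. The partial automorphisms of `A` induced by `P` are
defined on submodules of finite index only. They become automorphisms of the localizations at the
primes with infinite residue ring in the support of `A`, which are permuted; this gives
homomorphisms to exact groups of matrices over fields (theorem of Guentner, Higson and Weinberger,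
in the starting library `N506`). The rest is an induction with the maximal condition for normal
subgroups (P. Hall). For (1) the group `Comm G` is written as the quotient of the commensurator of
`G` in the symmetric group of `G × ℕ` by the subgroup `VC G`, and it is shown that `P / VC G` is
exact for all `P` as in (2).
-/

set_option autoImplicit false

namespace Pool.Agent.Results.MP_df705a_gt.Commensurators

open Pool.Agent.N506.EX Pool.Agent.U801.CM
open Pool.Agent.N24.CM (Comm)
open scoped commutatorElement

/-- The subgroup `G` has a subgroup `H` of finite index whose derived group is abelian. -/
def VirtuallyMetabelian {P : Type} [Group P] (G : Subgroup P) : Prop :=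
  ∃ H : Subgroup P, H ≤ G ∧ H.relIndex G ≠ 0 ∧ ∀ a ∈ ⁅H, H⁆, ∀ b ∈ ⁅H, H⁆, a * b = b * a

/-- `G ∩ p⁻¹ G p` has finite index in `G` for all elements `p` of the ambient group. -/
def Commensurated {P : Type} [Group P] (G : Subgroup P) : Prop :=
  ∀ p : P, (G.comap (MulAut.conj p).toMonoidHom).relIndex G ≠ 0

theorem result :
    -- (1)
    (∀ (G : Type) [Group G] [Group.FG G], VirtuallyMetabelian (⊤ : Subgroup G) →
      IsExact (Comm G) ∧ CoarselyEmbeds (Comm G)) ∧
    -- (2)
    (∀ (P : Type) [Group P] (G : Subgroup P), G.FG → VirtuallyMetabelian G → Commensurated G →
      (IsExact P ↔ ∀ E : Subgroup P, E ≤ G → E.relIndex G ≠ 0 →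
        IsExact (Subgroup.centralizer (E : Set P)))) ∧
    -- (3)
    (∀ (P V : Type) [Group P] [MulAction P V] (X : SimpleGraph V), X.Connected →
      (∀ v, (X.neighborSet v).Finite) →
      (∀ (g : P) (x y : V), X.Adj x y → X.Adj (g • x) (g • y)) →
      ∀ v : V, (MulAction.stabilizer P v).FG → VirtuallyMetabelian (MulAction.stabilizer P v) →
        (IsExact P ↔ ∀ E : Subgroup P, E ≤ MulAction.stabilizer P v →
          E.relIndex (MulAction.stabilizer P v) ≠ 0 →
          IsExact (Subgroup.centralizer (E : Set P)))) := by
  refine ⟨?_, ?_, ?_⟩
  · rintro G _ _ ⟨H, _, hH, hab⟩
    rw [Subgroup.relIndex_top_right] at hH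
    have h1 : IsExact (Comm G) := (ex_Comm G H hH hab).isExact
    have := countable_Comm G
    exact ⟨h1, h1.coarselyEmbeds⟩
  · rintro P _ G hfg ⟨H, hHG, hH, hab⟩ hc
    exact main_iff hfg hc hHG hH hab
  · rintro P V _ _ X hX hfin hact v hfg ⟨H, hHG, hH, hab⟩
    exact main_iff hfg (stab_cmt X hX hfin hact v) hHG hH hab

end Pool.Agent.Results.MP_df705a_gt.Commensurators
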