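import Pool.Agent.U241.FO.Main

/-!
# Matrix groups over filtered rings whose graded ring is an Ore domain

`FilteredOre A R i d` says the following. The function `d` is a degree function on the ring `R`:
for nonzero `x`, `y` the product `x y` is nonzero of degree `d x + d y`, and the degree of a nonzero
sum `x + y` is at most the maximum of `d x` and `d y`. The associated graded ring is left Ore: for
nonzero `x` and `y` there are `x'` and `y' ≠ 0` such that `y' x = x' y` or `y' x - x' y` has smaller
degree than `y' x`. The map `i` is an injective homomorphism from the commutative ring `A` to `R`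
whose values have degree zero, the nonzero elements of `A` form a right Ore set in `R`, and for every
`n` the elements of degree at most `n` have finite rank over `A`: there is a finite set `U` such that
for each such `x` there is `a ≠ 0` in `A` with `x a` in the right `A`-submodule generated by `U`.

The theorem says the following. (1) Let `R` be a ring each of whose finite subsets lies in a subring
`R₀` with `FilteredOre A R₀ i d` for some `A`, `i`, `d`. Then every group with a homomorphism with
exact kernel to `GL_n(R)` is exact, and embeds coarsely into a Hilbert space if it is countable.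
(2) The same for algebras `R` over a field with a degree function for which the elements of degree at
most `n` form a vector space of finite dimension, which grows subexponentially with `n` (here no Ore
condition is needed).

The ring `R` need not be an Ore domain itself. The proof uses the embedding of `R` in a division ring
with a discrete valuation (Cohn 1961), which is done with an ultrapower of the polynomial ring
`R[X]`, the fractions `x a⁻¹` in this division ring, and the tower step for the rings which are
vector spaces over a field such that the sets of bounded valuation have finite dimension.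
-/

namespace Pool.Agent.Results.MP_df705a_gt.FilteredOreRings

open Pool.Agent.U241.EX Pool.Agent.U241.DO Pool.Agent.U241.FO Pool.Agent.N506.EX

universe u

theorem result (n : ℕ) (P : Type u) [Group P] :
    (∀ (R : Type u) [Ring R],
      (∀ s : Finset R, ∃ R₀ : Subring R, (s : Set R) ⊆ R₀ ∧
        ∃ (A : Type u) (_ : CommRing A) (i : A →+* R₀) (d : R₀ → ℕ), FilteredOre A R₀ i d) →
      ∀ φ : P →* (Matrix (Fin n) (Fin n) R)ˣ, IsExact φ.ker →
        IsExact P ∧ (Countable P → CoarselyEmbeds P)) ∧
    (∀ (K R : Type u) [Field K] [Ring R] [Algebra K R] (V : ℕ → Submodule K R) (d : R → ℕ),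
      (∀ m x, x ∈ V m ↔ x = 0 ∨ d x ≤ m) → (∀ m, Module.Finite K (V m)) →
      (∀ x y, x ≠ 0 → y ≠ 0 → x * y ≠ 0 ∧ d (x * y) = d x + d y) →
      (∀ t : ℝ, 0 < t → t < 1 → ∃ C : ℝ, ∀ m, (Module.finrank K (V m) : ℝ) * t ^ m ≤ C) →
      ∀ φ : P →* (Matrix (Fin n) (Fin n) R)ˣ, IsExact φ.ker →
        IsExact P ∧ (Countable P → CoarselyEmbeds P)) := by
  refine ⟨?_, ?_⟩
  · intro R _ h φ hφ
    choose R₀ hR₀ A inst i d hd using h
    have h1 : All.Lin R := All.Lin.union R R₀ hR₀ fun s =>
      letI := inst s
      lin_main' (hd s)
    exact exactGL h1.mex n P φ hφ
  · intro K R _ _ _ V d h1 h2 h3 h4 φ hφ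
    have h5 : MEx R := by
      rcases subsingleton_or_nontrivial R with hR | hR
      · exact MEx.of_finite
      · exact (good_filtered (good_field K) V d h1 h2 h3 h4).mex
    exact exactGL h5 n P φ hφ

end Pool.Agent.Results.MP_df705a_gt.FilteredOreRings
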