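import Pool.Agent.U937.AL.Poly

/-!
# Groups acting on free polynilpotent Lie algebras are exact

`IsExact` is exactness of discrete groups (Yu's property A) and `CoarselyEmbeds` is coarse
embeddability into a Hilbert space, see `Pool/Agent/N506/EX0.lean`. `L = FL K r` is the free Lie
algebra of rank `r` over `K`, `Idl K r` the type of its ideals, `QL N = L / N`, and `Acts f` says that
the homomorphism `f` from `P` to the permutations of `L / N` has values in the group of `K`-linear
automorphisms of the Lie algebra `L / N`. `gam N k = γ_{k + 1}(N)` is the lower central series of the
ideal `N`. `L / PNI K r c l` is the free polynilpotent Lie algebra of rank `r` with class row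
`(c 0 + 1, …, c (l - 1) + 1)`: `PNI K r c 0 = L` and `PNI K r c (i + 1) = γ_{c i + 2}(PNI K r c i)`.
The free solvable Lie algebras are the case `c = 0`.

(1) Let `K` be a field and `G` a free polynilpotent Lie algebra of finite rank over `K`. Every group
acting on `G` with exact kernel is exact, and embeds coarsely into a Hilbert space if it is countable.

(2) The general theorem. Let `L` be the free Lie algebra of finite rank over a noetherian ring `K` and
`V 0 ≥ V 1 ≥ ⋯ ≥ V l` ideals of `L` such that `γ_{k + 1}(V i) ≤ V (i + 1) ≤ [V i, V i]` for some `k`
and such that `L / V i` is a free `K`-module (no condition if `K` is a field), `i < l`. Let the group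
`P` act on `L / V l`, compatibly with an action on `L / V 0`. If the kernel of the action on `L / V l`
is exact and the group of automorphisms of `L / V 0` induced by `P` is exact, then `P` is exact.

Outline. Let `S ≤ [R, R]` be ideals of `L` and `T = R / S`, `Q = L / R`. Fox calculus gives a
derivation `D` of `L / S` with values in the free module `U(Q)^r` over the enveloping algebra. The
automorphisms of `L / S` which are trivial modulo `T` satisfy a chain rule, so that the Jacobian
matrix gives a homomorphism to `GL_r(U(Q))`, an exact group by the result
`MP_01534c_gt.EnvelopingAlgebras` (`Pool.Agent.U241.EX.mex_uea`). If `φ` is in its kernel, then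
`φ - 1` is a derivation with values in the kernel of `D`, and it induces a `U(Q)`-linear map
`U(Q)^r → T / [T, T]`, so it vanishes on the kernel of `D` modulo `[T, T]`. This shows that the
kernel is abelian modulo the automorphisms which are trivial modulo `[T, T]`; the injectivity of the
Magnus embedding is not needed. The automorphisms which are trivial modulo an ideal `U ≤ [T, T]` form
an abelian group modulo those which are trivial modulo `[U, T]`, and one descends along the tower.
-/

set_option autoImplicit false

namespace Pool.Agent.Results.MP_df705a_gt.PolynilpotentLieAutomorphisms

open Pool.Agent.N506.EX Pool.Agent.U937.AL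

universe u

theorem result :
    (∀ (K : Type u) [Field K] (r : ℕ) (c : ℕ → ℕ) (l : ℕ) (P : Type u) [Group P]
      (f : P →* Equiv.Perm (QL (PNI K r c l))), Acts f → IsExact f.ker → ExEmb P) ∧
    (∀ (K : Type u) [CommRing K] [IsNoetherianRing K] (r : ℕ) (V : ℕ → Idl K r) (l : ℕ),
      Tower V l → ∀ (P : Type u) [Group P] (f : P →* Equiv.Perm (QL (V l)))
        (σ : P →* Equiv.Perm (QL (V 0))),
        Acts f → Acts σ → Compat f σ → IsExact f.ker → IsExact σ.range → ExEmb P) :=
  ⟨pnil_main, tower_main⟩

end Pool.Agent.Results.MP_df705a_gt.PolynilpotentLieAutomorphisms
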